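import Pool.Agent.Work.MP_6f78fb_rk.Interface

/-!
# ACT: the action of `S_n × S_m` on configurations and functions
-/

set_option autoImplicit false

open scoped BigOperators TensorProduct
open Classical

noncomputable section

namespace Pool.RookLC.helper70

variable {n m : ℕ}

theorem actC_mul (g h : G n m) (α : Cf n m) : actC (g * h) α = actC g (actC h α) := by
  funext a
  simp only [actC]
  rw [Option.map_map]
  have h1 : ((g * h).1.symm a : Fin n) = h.1.symm (g.1.symm a) := rfl
  rw [h1]
  congr 1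
  funext x
  simp only [Function.comp]
  rw [Option.map_map]
  rfl

theorem actC_one (α : Cf n m) : actC (1 : G n m) α = α := by
  funext a
  simp only [actC]
  have h1 : ((1 : G n m).1.symm a : Fin n) = a := rfl
  have h2 : Option.map ((1 : G n m).2 : Fin m → Fin m) = id := by
    funext x
    cases x <;> rfl
  rw [h1, h2, Option.map_id]
  rfl

theorem actC_inv (g : G n m) (α : Cf n m) : actC g⁻¹ (actC g α) = α := by
  rw [← actC_mul, inv_mul_cancel, actC_one]

theorem actC_inv' (g : G n m) (α : Cf n m) : actC g (actC g⁻¹ α) = α := by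
  rw [← actC_mul, mul_inv_cancel, actC_one]

/-- the action as a permutation -/
def actE (g : G n m) : Cf n m ≃ Cf n m where
  toFun := actC g
  invFun := actC g⁻¹
  left_inv := actC_inv g
  right_inv := actC_inv' g

theorem actC_apply (g : G n m) (α : Cf n m) (a : Fin n) :
    actC g α (g.1 a) = (α a).map (Option.map g.2) := by
  simp only [actC, Equiv.symm_apply_apply]

theorem map_eq_none {g : G n m} {s : St m} : s.map (Option.map g.2) = none ↔ s = none := by
  cases s <;> simp

theorem map_eq_mark {g : G n m} {s : St m} :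
    s.map (Option.map g.2) = some none ↔ s = some none := by
  rcases s with _ | _ | s <;> simp

theorem map_eq_rook {g : G n m} {s : St m} {j : Fin m} :
    s.map (Option.map g.2) = some (some (g.2 j)) ↔ s = some (some j) := by
  rcases s with _ | _ | s <;> simp

theorem valid_iff (g : G n m) (α : Cf n m) : Valid (actC g α) ↔ Valid α := by
  constructor
  · intro h a b j ha hb
    have h1 := h (g.1 a) (g.1 b) (g.2 j) (by rw [actC_apply]; exact map_eq_rook.2 ha)
      (by rw [actC_apply]; exact map_eq_rook.2 hb)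
    exact g.1.injective h1
  · intro h a b j ha hb
    obtain ⟨a, rfl⟩ := g.1.surjective a
    obtain ⟨b, rfl⟩ := g.1.surjective b
    obtain ⟨j, rfl⟩ := g.2.surjective j
    rw [actC_apply] at ha hb
    rw [h a b j (map_eq_rook.1 ha) (map_eq_rook.1 hb)]

theorem dd_eq (g : G n m) (α : Cf n m) : dd (actC g α) = dd α := by
  unfold dd
  symm
  refine Finset.card_bij (fun a _ => g.1 a) ?_ ?_ ?_
  · intro a ha
    rw [Finset.mem_filter] at ha ⊢
    refine ⟨Finset.mem_univ _, ?_⟩
    rw [actC_apply]
    exact fun h => ha.2 (map_eq_none.1 h)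
  · intro a _ b _ h
    exact g.1.injective h
  · intro b hb
    obtain ⟨a, rfl⟩ := g.1.surjective b
    rw [Finset.mem_filter, actC_apply] at hb
    exact ⟨a, Finset.mem_filter.2 ⟨Finset.mem_univ _, fun h => hb.2 (map_eq_none.2 h)⟩, rfl⟩

theorem tt_eq (g : G n m) (α : Cf n m) : tt (actC g α) = tt α := by
  unfold tt
  symm
  refine Finset.card_bij (fun a _ => g.1 a) ?_ ?_ ?_
  · intro a ha
    rw [Finset.mem_filter] at ha ⊢
    refine ⟨Finset.mem_univ _, ?_⟩
    rw [actC_apply]
    exact map_eq_mark.2 ha.2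
  · intro a _ b _ h
    exact g.1.injective h
  · intro b hb
    obtain ⟨a, rfl⟩ := g.1.surjective b
    rw [Finset.mem_filter, actC_apply] at hb
    exact ⟨a, Finset.mem_filter.2 ⟨Finset.mem_univ _, map_eq_mark.1 hb.2⟩, rfl⟩

theorem actC_update (g : G n m) (α : Cf n m) (a : Fin n) (s : St m) :
    actC g (Function.update α a s) =
      Function.update (actC g α) (g.1 a) (s.map (Option.map g.2)) := by
  funext b
  obtain ⟨b, rfl⟩ := g.1.surjective b
  rw [actC_apply]
  by_cases hb : b = a
  · subst hb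
    rw [Function.update_self, Function.update_self]
  · rw [Function.update_of_ne hb, Function.update_of_ne (fun h => hb (g.1.injective h)),
      actC_apply]

theorem mem_cols {α : Cf n m} {x : Fin m} : x ∈ cols α ↔ ∃ a, α a = some (some x) := by
  unfold cols
  rw [Finset.mem_filter]
  exact ⟨fun h => h.2, fun h => ⟨Finset.mem_univ _, h⟩⟩

theorem mem_cols_act (g : G n m) (α : Cf n m) (x : Fin m) :
    g.2 x ∈ cols (actC g α) ↔ x ∈ cols α := by
  rw [mem_cols, mem_cols]
  constructor
  · rintro ⟨a, ha⟩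
    obtain ⟨a, rfl⟩ := g.1.surjective a
    rw [actC_apply] at ha
    exact ⟨a, map_eq_rook.1 ha⟩
  · rintro ⟨a, ha⟩
    refine ⟨g.1 a, ?_⟩
    rw [actC_apply]
    exact map_eq_rook.2 ha

theorem posH_act (g : G n m) {f : Fn n m} (hf : PosH f) : PosH (fun α => f (actC g α)) := by
  intro α a
  have h := hf (actC g α) (g.1 a)
  rw [← Equiv.sum_comp g.2] at h
  rw [← h]
  refine Finset.sum_congr rfl fun x _ => ?_
  simp only
  rw [actC_update]
  rfl

theorem sum_none (g : G n m) (α : Cf n m) (F : Fin n → ℂ) :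
    ∑ b ∈ Finset.univ.filter (fun b => α b = none), F (g.1 b) =
      ∑ b ∈ Finset.univ.filter (fun b => actC g α b = none), F b := by
  refine Finset.sum_bij (fun b _ => g.1 b) ?_ ?_ ?_ ?_
  · intro b hb
    rw [Finset.mem_filter] at hb ⊢
    refine ⟨Finset.mem_univ _, ?_⟩
    rw [actC_apply]
    exact map_eq_none.2 hb.2
  · intro a _ b _ h
    exact g.1.injective h
  · intro b hb
    obtain ⟨a, rfl⟩ := g.1.surjective b
    rw [Finset.mem_filter, actC_apply] at hb
    exact ⟨a, Finset.mem_filter.2 ⟨Finset.mem_univ _, map_eq_none.1 hb.2⟩, rfl⟩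
  · intro b _
    rfl

theorem sum_none2 (g : G n m) (α β : Cf n m) (F : Fin n → ℂ) :
    ∑ b ∈ Finset.univ.filter (fun b => α b = none ∧ β b = none), F (g.1 b) =
      ∑ b ∈ Finset.univ.filter (fun b => actC g α b = none ∧ actC g β b = none), F b := by
  refine Finset.sum_bij (fun b _ => g.1 b) ?_ ?_ ?_ ?_
  · intro b hb
    rw [Finset.mem_filter] at hb ⊢
    refine ⟨Finset.mem_univ _, ?_⟩
    rw [actC_apply, actC_apply]
    exact ⟨map_eq_none.2 hb.2.1, map_eq_none.2 hb.2.2⟩
  · intro a _ b _ h
    exact g.1.injective h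
  · intro b hb
    obtain ⟨a, rfl⟩ := g.1.surjective b
    rw [Finset.mem_filter, actC_apply, actC_apply] at hb
    exact ⟨a, Finset.mem_filter.2 ⟨Finset.mem_univ _, map_eq_none.1 hb.2.1,
      map_eq_none.1 hb.2.2⟩, rfl⟩
  · intro b _
    rfl

theorem sum_cols (g : G n m) (β : Cf n m) (F : Fin m → ℂ) :
    ∑ x ∈ (cols β)ᶜ, F (g.2 x) = ∑ x ∈ (cols (actC g β))ᶜ, F x := by
  refine Finset.sum_bij (fun x _ => g.2 x) ?_ ?_ ?_ ?_
  · intro x hx
    rw [Finset.mem_compl] at hx ⊢
    rw [mem_cols_act]
    exact hx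
  · intro a _ b _ h
    exact g.2.injective h
  · intro y hy
    obtain ⟨x, rfl⟩ := g.2.surjective y
    rw [Finset.mem_compl, mem_cols_act] at hy
    exact ⟨x, Finset.mem_compl.2 hy, rfl⟩
  · intro b _
    rfl

theorem labH_act (g : G n m) {f : Fn n m} (hf : LabH f) : LabH (fun α => f (actC g α)) := by
  intro α s
  have h := hf (actC g α) (s.map g.2)
  rw [← sum_none g α (fun b => f (Function.update (actC g α) b (some (s.map g.2))))] at h
  rw [← h]
  refine Finset.sum_congr rfl fun b _ => ?_
  simp only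
  rw [actC_update]
  rfl

theorem H1_act (g : G n m) (l : Bool) {f : Fn n m} (hf : f ∈ H1 n m l) :
    (fun α => f (actC g α)) ∈ H1 n m l := by
  obtain ⟨h1, h2, h3⟩ := hf
  exact ⟨fun α h => (valid_iff g α).1 (h1 _ h), posH_act g h2, fun hl => labH_act g (h3 hl)⟩

theorem S1_act (g : G n m) (P : ℕ → ℕ → Prop) {f : Fn n m} (hf : f ∈ S1 n m P) :
    (fun α => f (actC g α)) ∈ S1 n m P := by
  intro α h
  have h1 := hf _ h
  rw [dd_eq, tt_eq] at h1
  exact h1

theorem S2_act (g : G n m) (P : ℕ → ℕ → ℕ → ℕ → Prop) {f : Fn2 n m} (hf : f ∈ S2 n m P) :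
    (fun ω : Pr n m => f (actC g ω.1, actC g ω.2)) ∈ S2 n m P := by
  intro ω h
  have h1 := hf _ h
  simp only [dd_eq, tt_eq] at h1
  exact h1

theorem UH_act (g : G n m) (l : Bool) {f : Fn2 n m} (hf : f ∈ UH n m l) :
    (fun ω : Pr n m => f (actC g ω.1, actC g ω.2)) ∈ UH n m l := by
  obtain ⟨h1, h2⟩ := hf
  exact ⟨fun β => H1_act g l (h1 (actC g β)), fun α => H1_act g l (h2 (actC g α))⟩

theorem NH_act (g : G n m) (l : Bool) {f : Fn2 n m} (hf : f ∈ NH n m l) :
    (fun ω : Pr n m => f (actC g ω.1, actC g ω.2)) ∈ NH n m l := by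
  obtain ⟨h1, ⟨h2, h2'⟩, h3⟩ := hf
  refine ⟨fun ω h => ?_, ⟨fun α β a => ?_, fun α β a => ?_⟩,
    fun hl => ⟨fun α β s => ?_, fun α β s => ?_⟩⟩
  · have h4 := h1 _ h
    exact ⟨(valid_iff g _).1 h4.1, (valid_iff g _).1 h4.2⟩
  · have h := h2 (actC g α) (actC g β) (g.1 a)
    rw [← sum_cols g β
      (fun x => f (Function.update (actC g α) (g.1 a) (some (some x)), actC g β))] at h
    rw [← h]
    refine Finset.sum_congr rfl fun x _ => ?_
    simp only
    rw [actC_update]
    rfl
  · have h := h2' (actC g α) (actC g β) (g.1 a)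
    rw [← sum_cols g α
      (fun x => f (actC g α, Function.update (actC g β) (g.1 a) (some (some x))))] at h
    rw [← h]
    refine Finset.sum_congr rfl fun x _ => ?_
    simp only
    rw [actC_update]
    rfl
  · have h := (h3 hl).1 (actC g α) (actC g β) (s.map g.2)
    rw [← sum_none2 g α β
      (fun b => f (Function.update (actC g α) b (some (s.map g.2)), actC g β))] at h
    rw [← h]
    refine Finset.sum_congr rfl fun b _ => ?_
    simp only
    rw [actC_update]
    rfl
  · have h := (h3 hl).2 (actC g α) (actC g β) (s.map g.2)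
    rw [← sum_none2 g α β
      (fun b => f (actC g α, Function.update (actC g β) b (some (s.map g.2))))] at h
    rw [← h]
    refine Finset.sum_congr rfl fun b _ => ?_
    simp only
    rw [actC_update]
    rfl

theorem actP_X (g : G n m) (p : Fin n × Fin m) :
    actP g (MvPolynomial.X p) = MvPolynomial.X (g.1 p.1, g.2 p.2) := by
  unfold actP
  rw [MvPolynomial.rename_X]

theorem actP_val (g : G n m) (a : Fin n) (s : St m) :
    actP g (val a s) = val (g.1 a) (s.map (Option.map g.2)) := by
  rcases s with _ | _ | j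
  · simp only [val, Option.map_none, map_one]
  · simp only [val, Option.map_some, Option.map_none, map_sum, actP_X]
    exact Equiv.sum_comp g.2 (fun j => (MvPolynomial.X (g.1 a, j) : Poly n m))
  · simp only [val, Option.map_some, actP_X]

theorem actP_mon (g : G n m) (α : Cf n m) : actP g (mon α) = mon (actC g α) := by
  unfold mon
  rw [map_prod, ← Equiv.prod_comp g.1 (fun a => val a (actC g α a))]
  refine Finset.prod_congr rfl fun a _ => ?_
  rw [actP_val, actC_apply]

theorem Th_act (g : G n m) (f : Fn n m) : Th n m (rF g f) = actP g (Th n m f) := by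
  change ∑ α, f (actC g⁻¹ α) • mon α = actP g (∑ α, f α • mon α)
  rw [map_sum, ← Equiv.sum_comp (actE g) (fun α => f (actC g⁻¹ α) • mon α)]
  refine Finset.sum_congr rfl fun α _ => ?_
  change f (actC g⁻¹ (actC g α)) • mon (actC g α) = _
  rw [actC_inv, map_smul, actP_mon]

theorem stmt_ACT : Stmt_ACT := by
  intro n m
  refine ⟨actC_mul, actC_one, fun g α => ⟨valid_iff g α, dd_eq g α, tt_eq g α⟩, ?_, ?_, ?_, ?_,
    Th_act⟩
  · intro g l f hf
    exact H1_act g⁻¹ l hf
  · intro g l d h f hf
    exact ⟨H1_act g⁻¹ l hf.1, S1_act g⁻¹ _ hf.2⟩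
  · intro g l P f hf
    exact ⟨UH_act g⁻¹ l hf.1, S2_act g⁻¹ P hf.2⟩
  · intro g l P f hf
    exact ⟨NH_act g⁻¹ l hf.1, S2_act g⁻¹ P hf.2⟩

end Pool.RookLC.helper70
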